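import Mathlib

namespace Pool.Agent.H.MP_e65cda_an

/-- one step in logarithmic coordinates, up to an error in `[0,2]` -/
def St (c a b z : ℝ) : Prop := max c b - a ≤ z ∧ z ≤ max c b - a + 2

lemma stx {c a b z : ℝ} (h : St c a b z) (h1 : c ≤ b) : b - a ≤ z ∧ z ≤ b - a + 2 := by
  unfold St at h; rwa [max_eq_right h1] at h

lemma sta {c a b z : ℝ} (h : St c a b z) (h1 : b ≤ c) : c - a ≤ z ∧ z ≤ c - a + 2 := by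
  unfold St at h; rwa [max_eq_left h1] at h

lemma word4 (K : ℝ) (hK : 1000000 ≤ K) (X : ℕ → ℝ)
    (h0 : ∀ n, n % 4 = 0 → X (n + 2) = X (n + 1) - X n)
    (h1 : ∀ n, n % 4 = 1 → St (10000) (X n) (X (n + 1)) (X (n + 2)))
    (h2 : ∀ n, n % 4 = 2 → X (n + 2) = X (n + 1) - X n)
    (h3 : ∀ n, n % 4 = 3 → St (-10000) (X n) (X (n + 1)) (X (n + 2)))
    (t1 : K ≤ X 0) (t2 : K ≤ X 1 - X 0) :
    K + 1 ≤ X 16 ∧ K + 1 ≤ X 17 - X 16 := by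
  have b0 : X 0 ≤ X 0 ∧ X 0 ≤ X 0 := ⟨le_rfl, le_rfl⟩
  have b1 : X 1 ≤ X 1 ∧ X 1 ≤ X 1 := ⟨le_rfl, le_rfl⟩
  have s2 : X 2 = X 1 - X 0 := h0 0 rfl
  have b2 : (0) + (-1) * X 0 + (1) * X 1 - 0 ≤ X 2 ∧ X 2 ≤ (0) + (-1) * X 0 + (1) * X 1 + 0 := ⟨by linarith only [s2, b0.1, b0.2, b1.1, b1.2], by linarith only [s2, b0.1, b0.2, b1.1, b1.2]⟩
  have s3 : X 2 - X 1 ≤ X 3 ∧ X 3 ≤ X 2 - X 1 + 2 := stx (h1 1 rfl) (by linarith only [b2.1, t1, t2, hK])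
  have b3 : (0) + (-1) * X 0 + (0) * X 1 - 2 ≤ X 3 ∧ X 3 ≤ (0) + (-1) * X 0 + (0) * X 1 + 2 := ⟨by linarith only [s3.1, s3.2, b1.1, b1.2, b2.1, b2.2], by linarith only [s3.1, s3.2, b1.1, b1.2, b2.1, b2.2]⟩
  have s4 : X 4 = X 3 - X 2 := h2 2 rfl
  have b4 : (0) + (0) * X 0 + (-1) * X 1 - 2 ≤ X 4 ∧ X 4 ≤ (0) + (0) * X 0 + (-1) * X 1 + 2 := ⟨by linarith only [s4, b2.1, b2.2, b3.1, b3.2], by linarith only [s4, b2.1, b2.2, b3.1, b3.2]⟩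
  have s5 : (-10000) - X 3 ≤ X 5 ∧ X 5 ≤ (-10000) - X 3 + 2 := sta (h3 3 rfl) (by linarith only [b4.2, t1, t2, hK])
  have b5 : (-10000) + (1) * X 0 + (0) * X 1 - 4 ≤ X 5 ∧ X 5 ≤ (-10000) + (1) * X 0 + (0) * X 1 + 4 := ⟨by linarith only [s5.1, s5.2, b3.1, b3.2], by linarith only [s5.1, s5.2, b3.1, b3.2]⟩
  have s6 : X 6 = X 5 - X 4 := h0 4 rfl
  have b6 : (-10000) + (1) * X 0 + (1) * X 1 - 6 ≤ X 6 ∧ X 6 ≤ (-10000) + (1) * X 0 + (1) * X 1 + 6 := ⟨by linarith only [s6, b4.1, b4.2, b5.1, b5.2], by linarith only [s6, b4.1, b4.2, b5.1, b5.2]⟩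
  have s7 : X 6 - X 5 ≤ X 7 ∧ X 7 ≤ X 6 - X 5 + 2 := stx (h1 5 rfl) (by linarith only [b6.1, t1, t2, hK])
  have b7 : (0) + (0) * X 0 + (1) * X 1 - 12 ≤ X 7 ∧ X 7 ≤ (0) + (0) * X 0 + (1) * X 1 + 12 := ⟨by linarith only [s7.1, s7.2, b5.1, b5.2, b6.1, b6.2], by linarith only [s7.1, s7.2, b5.1, b5.2, b6.1, b6.2]⟩
  have s8 : X 8 = X 7 - X 6 := h2 6 rfl
  have b8 : (10000) + (-1) * X 0 + (0) * X 1 - 18 ≤ X 8 ∧ X 8 ≤ (10000) + (-1) * X 0 + (0) * X 1 + 18 := ⟨by linarith only [s8, b6.1, b6.2, b7.1, b7.2], by linarith only [s8, b6.1, b6.2, b7.1, b7.2]⟩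
  have s9 : (-10000) - X 7 ≤ X 9 ∧ X 9 ≤ (-10000) - X 7 + 2 := sta (h3 7 rfl) (by linarith only [b8.2, t1, t2, hK])
  have b9 : (-10000) + (0) * X 0 + (-1) * X 1 - 14 ≤ X 9 ∧ X 9 ≤ (-10000) + (0) * X 0 + (-1) * X 1 + 14 := ⟨by linarith only [s9.1, s9.2, b7.1, b7.2], by linarith only [s9.1, s9.2, b7.1, b7.2]⟩
  have s10 : X 10 = X 9 - X 8 := h0 8 rfl
  have b10 : (-20000) + (1) * X 0 + (-1) * X 1 - 32 ≤ X 10 ∧ X 10 ≤ (-20000) + (1) * X 0 + (-1) * X 1 + 32 := ⟨by linarith only [s10, b8.1, b8.2, b9.1, b9.2], by linarith only [s10, b8.1, b8.2, b9.1, b9.2]⟩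
  have s11 : (10000) - X 9 ≤ X 11 ∧ X 11 ≤ (10000) - X 9 + 2 := sta (h1 9 rfl) (by linarith only [b10.2, t1, t2, hK])
  have b11 : (20000) + (0) * X 0 + (1) * X 1 - 16 ≤ X 11 ∧ X 11 ≤ (20000) + (0) * X 0 + (1) * X 1 + 16 := ⟨by linarith only [s11.1, s11.2, b9.1, b9.2], by linarith only [s11.1, s11.2, b9.1, b9.2]⟩
  have s12 : X 12 = X 11 - X 10 := h2 10 rfl
  have b12 : (40000) + (-1) * X 0 + (2) * X 1 - 48 ≤ X 12 ∧ X 12 ≤ (40000) + (-1) * X 0 + (2) * X 1 + 48 := ⟨by linarith only [s12, b10.1, b10.2, b11.1, b11.2], by linarith only [s12, b10.1, b10.2, b11.1, b11.2]⟩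
  have s13 : X 12 - X 11 ≤ X 13 ∧ X 13 ≤ X 12 - X 11 + 2 := stx (h3 11 rfl) (by linarith only [b12.1, t1, t2, hK])
  have b13 : (20000) + (-1) * X 0 + (1) * X 1 - 66 ≤ X 13 ∧ X 13 ≤ (20000) + (-1) * X 0 + (1) * X 1 + 66 := ⟨by linarith only [s13.1, s13.2, b11.1, b11.2, b12.1, b12.2], by linarith only [s13.1, s13.2, b11.1, b11.2, b12.1, b12.2]⟩
  have s14 : X 14 = X 13 - X 12 := h0 12 rfl
  have b14 : (-20000) + (0) * X 0 + (-1) * X 1 - 114 ≤ X 14 ∧ X 14 ≤ (-20000) + (0) * X 0 + (-1) * X 1 + 114 := ⟨by linarith only [s14, b12.1, b12.2, b13.1, b13.2], by linarith only [s14, b12.1, b12.2, b13.1, b13.2]⟩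
  have s15 : (10000) - X 13 ≤ X 15 ∧ X 15 ≤ (10000) - X 13 + 2 := sta (h1 13 rfl) (by linarith only [b14.2, t1, t2, hK])
  have b15 : (-10000) + (1) * X 0 + (-1) * X 1 - 68 ≤ X 15 ∧ X 15 ≤ (-10000) + (1) * X 0 + (-1) * X 1 + 68 := ⟨by linarith only [s15.1, s15.2, b13.1, b13.2], by linarith only [s15.1, s15.2, b13.1, b13.2]⟩
  have s16 : X 16 = X 15 - X 14 := h2 14 rfl
  have b16 : (10000) + (1) * X 0 + (0) * X 1 - 182 ≤ X 16 ∧ X 16 ≤ (10000) + (1) * X 0 + (0) * X 1 + 182 := ⟨by linarith only [s16, b14.1, b14.2, b15.1, b15.2], by linarith only [s16, b14.1, b14.2, b15.1, b15.2]⟩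
  have s17 : X 16 - X 15 ≤ X 17 ∧ X 17 ≤ X 16 - X 15 + 2 := stx (h3 15 rfl) (by linarith only [b16.1, t1, t2, hK])
  have b17 : (20000) + (0) * X 0 + (1) * X 1 - 252 ≤ X 17 ∧ X 17 ≤ (20000) + (0) * X 0 + (1) * X 1 + 252 := ⟨by linarith only [s17.1, s17.2, b15.1, b15.2, b16.1, b16.2], by linarith only [s17.1, s17.2, b15.1, b15.2, b16.1, b16.2]⟩
  exact ⟨by linarith only [b16.1, b16.2, b17.1, b17.2, t1, t2, hK], by linarith only [b16.1, b16.2, b17.1, b17.2, t1, t2, hK]⟩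

lemma word7 (K : ℝ) (hK : 1000000 ≤ K) (X : ℕ → ℝ)
    (h0 : ∀ n, n % 7 = 0 → St (0) (X n) (X (n + 1)) (X (n + 2)))
    (h1 : ∀ n, n % 7 = 1 → X (n + 2) = X (n + 1) - X n)
    (h2 : ∀ n, n % 7 = 2 → St (0) (X n) (X (n + 1)) (X (n + 2)))
    (h3 : ∀ n, n % 7 = 3 → X (n + 2) = X (n + 1) - X n)
    (h4 : ∀ n, n % 7 = 4 → St (0) (X n) (X (n + 1)) (X (n + 2)))
    (h5 : ∀ n, n % 7 = 5 → X (n + 2) = X (n + 1) - X n)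
    (h6 : ∀ n, n % 7 = 6 → St (0) (X n) (X (n + 1)) (X (n + 2)))
    (t1 : K ≤ X 1) (t2 : K ≤ X 0 - X 1) :
    K + 1 ≤ X 22 ∧ K + 1 ≤ X 21 - X 22 := by
  have b0 : X 0 ≤ X 0 ∧ X 0 ≤ X 0 := ⟨le_rfl, le_rfl⟩
  have b1 : X 1 ≤ X 1 ∧ X 1 ≤ X 1 := ⟨le_rfl, le_rfl⟩
  have s2 : X 1 - X 0 ≤ X 2 ∧ X 2 ≤ X 1 - X 0 + 2 := stx (h0 0 rfl) (by linarith only [b1.1, t1, t2, hK])
  have b2 : (0) + (-1) * X 0 + (1) * X 1 - 2 ≤ X 2 ∧ X 2 ≤ (0) + (-1) * X 0 + (1) * X 1 + 2 := ⟨by linarith only [s2.1, s2.2, b0.1, b0.2, b1.1, b1.2], by linarith only [s2.1, s2.2, b0.1, b0.2, b1.1, b1.2]⟩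
  have s3 : X 3 = X 2 - X 1 := h1 1 rfl
  have b3 : (0) + (-1) * X 0 + (0) * X 1 - 2 ≤ X 3 ∧ X 3 ≤ (0) + (-1) * X 0 + (0) * X 1 + 2 := ⟨by linarith only [s3, b1.1, b1.2, b2.1, b2.2], by linarith only [s3, b1.1, b1.2, b2.1, b2.2]⟩
  have s4 : (0) - X 2 ≤ X 4 ∧ X 4 ≤ (0) - X 2 + 2 := sta (h2 2 rfl) (by linarith only [b3.2, t1, t2, hK])
  have b4 : (0) + (1) * X 0 + (-1) * X 1 - 4 ≤ X 4 ∧ X 4 ≤ (0) + (1) * X 0 + (-1) * X 1 + 4 := ⟨by linarith only [s4.1, s4.2, b2.1, b2.2], by linarith only [s4.1, s4.2, b2.1, b2.2]⟩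
  have s5 : X 5 = X 4 - X 3 := h3 3 rfl
  have b5 : (0) + (2) * X 0 + (-1) * X 1 - 6 ≤ X 5 ∧ X 5 ≤ (0) + (2) * X 0 + (-1) * X 1 + 6 := ⟨by linarith only [s5, b3.1, b3.2, b4.1, b4.2], by linarith only [s5, b3.1, b3.2, b4.1, b4.2]⟩
  have s6 : X 5 - X 4 ≤ X 6 ∧ X 6 ≤ X 5 - X 4 + 2 := stx (h4 4 rfl) (by linarith only [b5.1, t1, t2, hK])
  have b6 : (0) + (1) * X 0 + (0) * X 1 - 12 ≤ X 6 ∧ X 6 ≤ (0) + (1) * X 0 + (0) * X 1 + 12 := ⟨by linarith only [s6.1, s6.2, b4.1, b4.2, b5.1, b5.2], by linarith only [s6.1, s6.2, b4.1, b4.2, b5.1, b5.2]⟩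
  have s7 : X 7 = X 6 - X 5 := h5 5 rfl
  have b7 : (0) + (-1) * X 0 + (1) * X 1 - 18 ≤ X 7 ∧ X 7 ≤ (0) + (-1) * X 0 + (1) * X 1 + 18 := ⟨by linarith only [s7, b5.1, b5.2, b6.1, b6.2], by linarith only [s7, b5.1, b5.2, b6.1, b6.2]⟩
  have s8 : (0) - X 6 ≤ X 8 ∧ X 8 ≤ (0) - X 6 + 2 := sta (h6 6 rfl) (by linarith only [b7.2, t1, t2, hK])
  have b8 : (0) + (-1) * X 0 + (0) * X 1 - 14 ≤ X 8 ∧ X 8 ≤ (0) + (-1) * X 0 + (0) * X 1 + 14 := ⟨by linarith only [s8.1, s8.2, b6.1, b6.2], by linarith only [s8.1, s8.2, b6.1, b6.2]⟩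
  have s9 : (0) - X 7 ≤ X 9 ∧ X 9 ≤ (0) - X 7 + 2 := sta (h0 7 rfl) (by linarith only [b8.2, t1, t2, hK])
  have b9 : (0) + (1) * X 0 + (-1) * X 1 - 20 ≤ X 9 ∧ X 9 ≤ (0) + (1) * X 0 + (-1) * X 1 + 20 := ⟨by linarith only [s9.1, s9.2, b7.1, b7.2], by linarith only [s9.1, s9.2, b7.1, b7.2]⟩
  have s10 : X 10 = X 9 - X 8 := h1 8 rfl
  have b10 : (0) + (2) * X 0 + (-1) * X 1 - 34 ≤ X 10 ∧ X 10 ≤ (0) + (2) * X 0 + (-1) * X 1 + 34 := ⟨by linarith only [s10, b8.1, b8.2, b9.1, b9.2], by linarith only [s10, b8.1, b8.2, b9.1, b9.2]⟩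
  have s11 : X 10 - X 9 ≤ X 11 ∧ X 11 ≤ X 10 - X 9 + 2 := stx (h2 9 rfl) (by linarith only [b10.1, t1, t2, hK])
  have b11 : (0) + (1) * X 0 + (0) * X 1 - 56 ≤ X 11 ∧ X 11 ≤ (0) + (1) * X 0 + (0) * X 1 + 56 := ⟨by linarith only [s11.1, s11.2, b9.1, b9.2, b10.1, b10.2], by linarith only [s11.1, s11.2, b9.1, b9.2, b10.1, b10.2]⟩
  have s12 : X 12 = X 11 - X 10 := h3 10 rfl
  have b12 : (0) + (-1) * X 0 + (1) * X 1 - 90 ≤ X 12 ∧ X 12 ≤ (0) + (-1) * X 0 + (1) * X 1 + 90 := ⟨by linarith only [s12, b10.1, b10.2, b11.1, b11.2], by linarith only [s12, b10.1, b10.2, b11.1, b11.2]⟩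
  have s13 : (0) - X 11 ≤ X 13 ∧ X 13 ≤ (0) - X 11 + 2 := sta (h4 11 rfl) (by linarith only [b12.2, t1, t2, hK])
  have b13 : (0) + (-1) * X 0 + (0) * X 1 - 58 ≤ X 13 ∧ X 13 ≤ (0) + (-1) * X 0 + (0) * X 1 + 58 := ⟨by linarith only [s13.1, s13.2, b11.1, b11.2], by linarith only [s13.1, s13.2, b11.1, b11.2]⟩
  have s14 : X 14 = X 13 - X 12 := h5 12 rfl
  have b14 : (0) + (0) * X 0 + (-1) * X 1 - 148 ≤ X 14 ∧ X 14 ≤ (0) + (0) * X 0 + (-1) * X 1 + 148 := ⟨by linarith only [s14, b12.1, b12.2, b13.1, b13.2], by linarith only [s14, b12.1, b12.2, b13.1, b13.2]⟩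
  have s15 : (0) - X 13 ≤ X 15 ∧ X 15 ≤ (0) - X 13 + 2 := sta (h6 13 rfl) (by linarith only [b14.2, t1, t2, hK])
  have b15 : (0) + (1) * X 0 + (0) * X 1 - 60 ≤ X 15 ∧ X 15 ≤ (0) + (1) * X 0 + (0) * X 1 + 60 := ⟨by linarith only [s15.1, s15.2, b13.1, b13.2], by linarith only [s15.1, s15.2, b13.1, b13.2]⟩
  have s16 : X 15 - X 14 ≤ X 16 ∧ X 16 ≤ X 15 - X 14 + 2 := stx (h0 14 rfl) (by linarith only [b15.1, t1, t2, hK])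
  have b16 : (0) + (1) * X 0 + (1) * X 1 - 210 ≤ X 16 ∧ X 16 ≤ (0) + (1) * X 0 + (1) * X 1 + 210 := ⟨by linarith only [s16.1, s16.2, b14.1, b14.2, b15.1, b15.2], by linarith only [s16.1, s16.2, b14.1, b14.2, b15.1, b15.2]⟩
  have s17 : X 17 = X 16 - X 15 := h1 15 rfl
  have b17 : (0) + (0) * X 0 + (1) * X 1 - 270 ≤ X 17 ∧ X 17 ≤ (0) + (0) * X 0 + (1) * X 1 + 270 := ⟨by linarith only [s17, b15.1, b15.2, b16.1, b16.2], by linarith only [s17, b15.1, b15.2, b16.1, b16.2]⟩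
  have s18 : X 17 - X 16 ≤ X 18 ∧ X 18 ≤ X 17 - X 16 + 2 := stx (h2 16 rfl) (by linarith only [b17.1, t1, t2, hK])
  have b18 : (0) + (-1) * X 0 + (0) * X 1 - 482 ≤ X 18 ∧ X 18 ≤ (0) + (-1) * X 0 + (0) * X 1 + 482 := ⟨by linarith only [s18.1, s18.2, b16.1, b16.2, b17.1, b17.2], by linarith only [s18.1, s18.2, b16.1, b16.2, b17.1, b17.2]⟩
  have s19 : X 19 = X 18 - X 17 := h3 17 rfl
  have b19 : (0) + (-1) * X 0 + (-1) * X 1 - 752 ≤ X 19 ∧ X 19 ≤ (0) + (-1) * X 0 + (-1) * X 1 + 752 := ⟨by linarith only [s19, b17.1, b17.2, b18.1, b18.2], by linarith only [s19, b17.1, b17.2, b18.1, b18.2]⟩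
  have s20 : (0) - X 18 ≤ X 20 ∧ X 20 ≤ (0) - X 18 + 2 := sta (h4 18 rfl) (by linarith only [b19.2, t1, t2, hK])
  have b20 : (0) + (1) * X 0 + (0) * X 1 - 484 ≤ X 20 ∧ X 20 ≤ (0) + (1) * X 0 + (0) * X 1 + 484 := ⟨by linarith only [s20.1, s20.2, b18.1, b18.2], by linarith only [s20.1, s20.2, b18.1, b18.2]⟩
  have s21 : X 21 = X 20 - X 19 := h5 19 rfl
  have b21 : (0) + (2) * X 0 + (1) * X 1 - 1236 ≤ X 21 ∧ X 21 ≤ (0) + (2) * X 0 + (1) * X 1 + 1236 := ⟨by linarith only [s21, b19.1, b19.2, b20.1, b20.2], by linarith only [s21, b19.1, b19.2, b20.1, b20.2]⟩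
  have s22 : X 21 - X 20 ≤ X 22 ∧ X 22 ≤ X 21 - X 20 + 2 := stx (h6 20 rfl) (by linarith only [b21.1, t1, t2, hK])
  have b22 : (0) + (1) * X 0 + (1) * X 1 - 1722 ≤ X 22 ∧ X 22 ≤ (0) + (1) * X 0 + (1) * X 1 + 1722 := ⟨by linarith only [s22.1, s22.2, b20.1, b20.2, b21.1, b21.2], by linarith only [s22.1, s22.2, b20.1, b20.2, b21.1, b21.2]⟩
  exact ⟨by linarith only [b21.1, b21.2, b22.1, b22.2, t1, t2, hK], by linarith only [b21.1, b21.2, b22.1, b22.2, t1, t2, hK]⟩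

end Pool.Agent.H.MP_e65cda_an
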