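import Mathlib
import Pool.Agent.H.MP_e65cda_an.A

namespace Pool.Agent.H.MP_e65cda_an

open Real

noncomputable def M (a : ℝ) (s : ℝ × ℝ) : ℝ × ℝ := (s.2, (a + s.2) / s.1)

noncomputable def run (α : ℕ → ℝ) : ℕ → ℝ × ℝ → ℝ × ℝ
  | 0 => id
  | n + 1 => fun s => M (α n) (run α n s)

def Pos (s : ℝ × ℝ) : Prop := 0 < s.1 ∧ 0 < s.2

lemma M_pos {a : ℝ} (ha : 0 ≤ a) {s : ℝ × ℝ} (hs : Pos s) : Pos (M a s) :=
  ⟨hs.2, by have := hs.1; have := hs.2; simp only [M]; positivity⟩

lemma run_pos {α : ℕ → ℝ} (hα : ∀ n, 0 ≤ α n) {s : ℝ × ℝ} (hs : Pos s) (n : ℕ) :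
    Pos (run α n s) := by
  induction n with
  | zero => exact hs
  | succ n ih => exact M_pos (hα n) ih

lemma run_add (α : ℕ → ℝ) (n m : ℕ) (s : ℝ × ℝ) :
    run α (n + m) s = run (fun k => α (n + k)) m (run α n s) := by
  induction m with
  | zero => rfl
  | succ m ih => show M _ (run α (n + m) s) = M _ _; rw [ih]; rfl

lemma run_congr {α β : ℕ → ℝ} (n : ℕ) (h : ∀ k < n, α k = β k) (s : ℝ × ℝ) :
    run α n s = run β n s := by
  induction n with
  | zero => rfl
  | succ n ih =>
    show M _ _ = M _ _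
    rw [h n (by omega), ih fun k hk => h k (by omega)]

lemma run_per {α : ℕ → ℝ} {p : ℕ} (h : ∀ n, α (n + p) = α n) (k : ℕ) (s : ℝ × ℝ) :
    run α (p * k) s = (run α p)^[k] s := by
  induction k generalizing s with
  | zero => rfl
  | succ k ih =>
    rw [Nat.mul_succ, add_comm, run_add, Function.iterate_succ_apply, ← ih]
    exact run_congr _ (fun j _ => by rw [add_comm, h]) _

lemma run_zero (i : ℕ) {s : ℝ × ℝ} (hs : Pos s) : run (fun _ => 0) (6 * i) s = s := by
  rw [run_per (p := 6) (fun _ => rfl)]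
  refine Function.iterate_fixed ?_ i
  obtain ⟨u, v⟩ := s
  obtain ⟨hu, hv⟩ : 0 < u ∧ 0 < v := hs
  simp only [run, M, id, zero_add, Prod.mk.injEq]
  constructor <;> field_simp

lemma run_rec (α : ℕ → ℝ) (s : ℝ × ℝ) (n : ℕ) :
    (run α (n + 2) s).1 = (α n + (run α (n + 1) s).1) / (run α n s).1 := rfl

/-- a base word of length `r` with a marked letter and an unbounded orbit -/
def Base (r : ℕ) : Prop := ∃ w : ℕ → ℝ, (∀ n, 0 ≤ w n) ∧
  (∃ j < r, w j ≠ 0 ∧ ∀ i < r, w i = w j → i = j) ∧
  ∃ s, Pos s ∧ ∀ C : ℝ, ∃ k, C < ((run w r)^[k] s).2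

lemma base_of_shear (r : ℕ) (w : ℕ → ℝ) (h0 : ∀ n, 0 ≤ w n)
    (hm : ∃ j < r, w j ≠ 0 ∧ ∀ i < r, w i = w j → i = j) (x c : ℝ) (hx : 0 < x) (hc : 1 < c)
    (h : ∀ y, 0 < y → run w r (run w r (x, y)) = (x, c * y)) : Base r := by
  refine ⟨w, h0, hm, (x, 1), ⟨hx, one_pos⟩, fun C => ?_⟩
  have key : ∀ k, (run w r)^[2 * k] (x, 1) = (x, c ^ k) := by
    intro k
    induction k with
    | zero => simp
    | succ k ih =>
      rw [show 2 * (k + 1) = 2 * k + 1 + 1 by ring, Function.iterate_succ_apply',
        Function.iterate_succ_apply', ih, h _ (by positivity), pow_succ']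
  obtain ⟨k, hk⟩ := pow_unbounded_of_one_lt C hc
  exact ⟨2 * k, by rw [key]; exact hk⟩

lemma base3 : Base 3 := by
  refine base_of_shear 3 (fun n => if n = 2 then 2 else 0) (fun n => by split_ifs <;> norm_num)
    ⟨2, by norm_num, by norm_num, fun i hi => by interval_cases i <;> norm_num⟩ (1 / 2) (5 / 2)
    (by norm_num) (by norm_num) fun y hy => ?_
  simp only [run, M, id, Prod.mk.injEq]
  norm_num
  constructor <;> field_simp <;> norm_num

lemma base5 : Base 5 := by
  refine base_of_shear 5 (fun n => if n = 4 then 2 else 1) (fun n => by split_ifs <;> norm_num)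
    ⟨4, by norm_num, by norm_num, fun i hi => by interval_cases i <;> norm_num⟩ 1 (9 / 4)
    (by norm_num) (by norm_num) fun y hy => ?_
  have h : ∀ y : ℝ, 0 < y → run (fun n => if n = 4 then 2 else 1) 5 (1, y) = (1, 3 / 2 * y) := by
    intro y hy
    simp only [run, M, id, Prod.mk.injEq]
    norm_num
    constructor <;> field_simp <;> ring
  rw [h y hy, h _ (by positivity)]; congr 1; ring

lemma base6 : Base 6 := by
  refine base_of_shear 6 (fun n => if n = 5 then 2 else 0) (fun n => by split_ifs <;> norm_num)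
    ⟨5, by norm_num, by norm_num, fun i hi => by interval_cases i <;> norm_num⟩ 1 9
    (by norm_num) (by norm_num) fun y hy => ?_
  have h : ∀ y : ℝ, 0 < y → run (fun n => if n = 5 then 2 else 0) 6 (1, y) = (1, 3 * y) := by
    intro y hy
    simp only [run, M, id, Prod.mk.injEq]
    norm_num
    constructor <;> field_simp <;> ring
  rw [h y hy, h _ (by positivity)]; congr 1; ring

lemma base8 : Base 8 := by
  refine base_of_shear 8 (fun n => if n = 7 then 2 else if n < 3 then 0 else 1)
    (fun n => by split_ifs <;> norm_num)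
    ⟨7, by norm_num, by norm_num, fun i hi => by interval_cases i <;> norm_num⟩ (1 / 2) (5 / 4)
    (by norm_num) (by norm_num) fun y hy => ?_
  have h : ∀ x y : ℝ, 0 < x → 0 < y →
      run (fun n => if n = 7 then 2 else if n < 3 then 0 else 1) 8 (x, y) =
        (1 / x, (2 * x + 1) / ((x + 1) * y)) := by
    intro x y hx hy
    have h3 : run (fun n => if n = 7 then 2 else if n < 3 then 0 else 1) 3 (x, y) =
        (1 / x, 1 / y) := by
      simp only [run, M, id, Prod.mk.injEq]
      norm_num
      constructor <;> field_simp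
    rw [show 8 = 3 + 5 by rfl, run_add, h3]
    simp only [run, M, id, Prod.mk.injEq]
    norm_num
    constructor <;> field_simp <;> ring
  rw [h _ y (by norm_num) hy, h _ _ (by norm_num) (by positivity)]
  simp only [Prod.mk.injEq]
  constructor <;> field_simp <;> norm_num

lemma log_st {a c x y : ℝ} (h1 : exp c ≤ a) (h2 : a ≤ 2 * exp c) (hx : 0 < x) (hy : 0 < y) :
    St c (log x) (log y) (log ((a + y) / x)) := by
  have ha : 0 < a := (exp_pos c).trans_le h1
  rw [log_div (by positivity) hx.ne']
  have e1 : exp c ≤ exp (max c (log y)) := exp_le_exp.2 (le_max_left _ _)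
  have e2 : y ≤ exp (max c (log y)) := by
    calc y = exp (log y) := (exp_log hy).symm
      _ ≤ _ := exp_le_exp.2 (le_max_right _ _)
  constructor
  · have : max c (log y) ≤ log (a + y) := max_le
      ((le_log_iff_exp_le (by positivity)).2 (by linarith)) (log_le_log hy (by linarith))
    linarith
  · have : log (a + y) ≤ max c (log y) + 2 := by
      rw [log_le_iff_le_exp (by positivity), exp_add]
      have := add_one_le_exp (2 : ℝ)
      nlinarith [exp_pos (max c (log y))]
    linarith

lemma log_lin {x y : ℝ} (hx : 0 < x) (hy : 0 < y) : log ((0 + y) / x) = log y - log x := by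
  rw [zero_add, log_div hy.ne' hx.ne']

lemma base4 : Base 4 := by
  set w : ℕ → ℝ := fun n => if n % 4 = 1 then exp 10000 else if n % 4 = 3 then exp (-10000) else 0
    with hw
  have h0 : ∀ n, 0 ≤ w n := fun n => by simp only [hw]; split_ifs <;> positivity
  have hs : Pos (exp 1000000, exp 2000000) := ⟨exp_pos _, exp_pos _⟩
  refine ⟨w, h0, ⟨1, by norm_num, by simp [hw], fun i hi => ?_⟩, _, hs, fun C => ?_⟩
  · interval_cases i <;> simp [hw, (exp_pos _).ne]
    norm_num
  set X : ℕ → ℝ := fun n => log (run w n (exp 1000000, exp 2000000)).1 with hX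
  have hp := fun n => (run_pos h0 hs n).1
  have key : ∀ m : ℕ, 1000000 + (m : ℝ) ≤ X (16 * m) ∧
      1000000 + (m : ℝ) ≤ X (16 * m + 1) - X (16 * m) := by
    intro m
    induction m with
    | zero => simp [hX, run, M]; norm_num
    | succ m ih =>
      have := word4 (1000000 + m) (by have : (0 : ℝ) ≤ m := by positivity
                                      linarith) (fun n => X (16 * m + n))
        (fun n hn => by
          simp only [hX, ← add_assoc, run_rec]
          rw [show w (16 * m + n) = 0 by simp only [hw]; rw [if_neg (by omega), if_neg (by omega)]]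
          exact log_lin (hp _) (hp _))
        (fun n hn => by
          simp only [hX, ← add_assoc, run_rec]
          rw [show w (16 * m + n) = exp 10000 by simp only [hw]; rw [if_pos (by omega)]]
          exact log_st le_rfl (by linarith [exp_pos 10000]) (hp _) (hp _))
        (fun n hn => by
          simp only [hX, ← add_assoc, run_rec]
          rw [show w (16 * m + n) = 0 by simp only [hw]; rw [if_neg (by omega), if_neg (by omega)]]
          exact log_lin (hp _) (hp _))
        (fun n hn => by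
          simp only [hX, ← add_assoc, run_rec]
          rw [show w (16 * m + n) = exp (-10000) by
            simp only [hw]; rw [if_neg (by omega), if_pos (by omega)]]
          exact log_st le_rfl (by linarith [exp_pos (-10000)]) (hp _) (hp _)) ih.1 ih.2
      push_cast
      rw [show 16 * (m + 1) = 16 * m + 16 by ring, ← add_assoc]
      exact this
  obtain ⟨m, hm⟩ := exists_nat_gt C
  refine ⟨4 * m, ?_⟩
  rw [← run_per (fun n => by simp [hw]), show 4 * (4 * m) = 16 * m by ring]
  have h1 := key m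
  have h2 : X (16 * m + 1) ≤ (run w (16 * m + 1) (exp 1000000, exp 2000000)).1 :=
    (log_le_sub_one_of_pos (hp _)).trans (by linarith)
  have h3 : (0 : ℝ) ≤ m := by positivity
  exact lt_of_lt_of_le (by linarith [h1.1, h1.2]) h2

lemma base7 : Base 7 := by
  set w : ℕ → ℝ := fun n => if n % 7 = 0 then 2 else if n % 7 % 2 = 0 then 1 else 0 with hw
  have h0 : ∀ n, 0 ≤ w n := fun n => by simp only [hw]; split_ifs <;> positivity
  have hs : Pos (exp 2000000, exp 1000000) := ⟨exp_pos _, exp_pos _⟩
  refine ⟨w, h0, ⟨0, by norm_num, by simp [hw], fun i hi => ?_⟩, _, hs, fun C => ?_⟩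
  · interval_cases i <;> simp [hw]
  set X : ℕ → ℝ := fun n => log (run w n (exp 2000000, exp 1000000)).1 with hX
  have hp := fun n => (run_pos h0 hs n).1
  have key : ∀ m : ℕ, 1000000 + (m : ℝ) ≤ X (21 * m + 1) ∧
      1000000 + (m : ℝ) ≤ X (21 * m) - X (21 * m + 1) := by
    intro m
    induction m with
    | zero => simp [hX, run, M]; norm_num
    | succ m ih =>
      have hz : ∀ n, n % 7 % 2 = 1 → X (21 * m + (n + 2)) = X (21 * m + (n + 1)) - X (21 * m + n) :=
        fun n hn => by
          simp only [hX, ← add_assoc, run_rec]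
          rw [show w (21 * m + n) = 0 by simp only [hw]; rw [if_neg (by omega), if_neg (by omega)]]
          exact log_lin (hp _) (hp _)
      have ho : ∀ n, n % 7 % 2 = 0 →
          St 0 (X (21 * m + n)) (X (21 * m + (n + 1))) (X (21 * m + (n + 2))) :=
        fun n hn => by
          simp only [hX, ← add_assoc, run_rec]
          refine log_st ?_ ?_ (hp _) (hp _) <;> simp only [hw, exp_zero] <;> split_ifs <;>
            first | omega | norm_num
      have := word7 (1000000 + m) (by have : (0 : ℝ) ≤ m := by positivity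
                                      linarith) (fun n => X (21 * m + n))
        (fun n hn => ho n (by omega)) (fun n hn => hz n (by omega))
        (fun n hn => ho n (by omega)) (fun n hn => hz n (by omega))
        (fun n hn => ho n (by omega)) (fun n hn => hz n (by omega))
        (fun n hn => ho n (by omega)) ih.1 ih.2
      push_cast
      rw [show 21 * (m + 1) = 21 * m + 21 by ring, ← add_assoc]
      exact this
  obtain ⟨m, hm⟩ := exists_nat_gt C
  refine ⟨3 * m, ?_⟩
  rw [← run_per (fun n => by simp [hw]), show 7 * (3 * m) = 21 * m by ring]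
  have h1 := key m
  have h2 : X (21 * m + 1) ≤ (run w (21 * m + 1) (exp 2000000, exp 1000000)).1 :=
    (log_le_sub_one_of_pos (hp _)).trans (by linarith)
  exact lt_of_lt_of_le (by linarith [h1.1]) h2

theorem bad (p : ℕ) (hp : 3 ≤ p) : ∃ α : ℕ → ℝ, (∀ n, 0 ≤ α n) ∧
    IsLeast {q : ℕ | 1 ≤ q ∧ ∀ n, α (n + q) = α n} p ∧ ∃ x : ℕ → ℝ, 0 < x 0 ∧ 0 < x 1 ∧
      (∀ n, x (n + 2) = (α n + x (n + 1)) / x n) ∧ ¬ BddAbove (Set.range x) := by
  obtain ⟨r, i, hr, rfl⟩ : ∃ r i, Base r ∧ p = r + 6 * i := by
    have : (p - 3) % 6 = 0 ∨ (p - 3) % 6 = 1 ∨ (p - 3) % 6 = 2 ∨ (p - 3) % 6 = 3 ∨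
      (p - 3) % 6 = 4 ∨ (p - 3) % 6 = 5 := by omega
    rcases this with h | h | h | h | h | h
    exacts [⟨3, (p - 3) / 6, base3, by omega⟩, ⟨4, (p - 3) / 6, base4, by omega⟩,
      ⟨5, (p - 3) / 6, base5, by omega⟩, ⟨6, (p - 3) / 6, base6, by omega⟩,
      ⟨7, (p - 3) / 6, base7, by omega⟩, ⟨8, (p - 3) / 6, base8, by omega⟩]
  obtain ⟨w, h0, ⟨j, hj, hj0, hj1⟩, s, hs, hun⟩ := hr
  set α : ℕ → ℝ := fun n => if n % (r + 6 * i) < r then w (n % (r + 6 * i)) else 0 with hα
  have hα0 : ∀ n, 0 ≤ α n := fun n => by simp only [hα]; split_ifs; exacts [h0 _, le_rfl]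
  have hper : ∀ n, α (n + (r + 6 * i)) = α n := fun n => by simp only [hα, Nat.add_mod_right]
  have hrun : ∀ t, Pos t → run α (r + 6 * i) t = run w r t := by
    intro t ht
    rw [run_add, run_congr (β := fun _ => 0) (6 * i) (fun k hk => by
      simp only [hα]; rw [Nat.mod_eq_of_lt (by omega), if_neg (by omega)]),
      run_zero i (run_pos hα0 ht r)]
    exact run_congr r (fun k hk => by
      simp only [hα]; rw [Nat.mod_eq_of_lt (by omega), if_pos hk]) t
  have hit : ∀ k, Pos ((run w r)^[k] s) ∧ (run α (r + 6 * i))^[k] s = (run w r)^[k] s := by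
    intro k
    induction k with
    | zero => exact ⟨hs, rfl⟩
    | succ k ih =>
      rw [Function.iterate_succ_apply', Function.iterate_succ_apply', ih.2]
      exact ⟨run_pos h0 ih.1 r, hrun _ ih.1⟩
  refine ⟨α, hα0, ⟨⟨by omega, hper⟩, ?_⟩, fun n => (run α n s).1, hs.1, hs.2, run_rec α s, ?_⟩
  · rintro q ⟨hq1, hq⟩
    have h1 := hq j
    simp only [hα] at h1
    rw [Nat.mod_eq_of_lt (show j < r + 6 * i by omega), if_pos hj] at h1
    split_ifs at h1 with h2
    · have h3 := hj1 _ h2 h1
      by_contra hlt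
      push Not at hlt
      by_cases h4 : j + q < r + 6 * i
      · rw [Nat.mod_eq_of_lt h4] at h3; omega
      · rw [Nat.mod_eq_sub_mod (by omega), Nat.mod_eq_of_lt (by omega)] at h3; omega
    · exact absurd h1.symm hj0
  · rintro ⟨C, hC⟩
    obtain ⟨k, hk⟩ := hun C
    rw [← (hit k).2, ← run_per hper] at hk
    exact absurd (hC ⟨(r + 6 * i) * k + 1, rfl⟩) (not_le.2 hk)

end Pool.Agent.H.MP_e65cda_an
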